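import Pool.Agent.H95.ESP.Stmts

/-!
# Board esp (MP_3ddf05_nt), row PCD: few primes are excluded
-/

set_option autoImplicit false

namespace ESP
open Finset

theorem PCD_card_le (A : Finset ℕ) (n : ℕ) (hA : ∀ p ∈ A, 13 ≤ p) (h : ∏ p ∈ A, p ≤ n) :
    (A.card : ℝ) ≤ Real.log n := by
  have h1 : (A.card : ℝ) ≤ ∑ p ∈ A, Real.log (p : ℝ) := by
    have h2 : (A.card : ℝ) = ∑ p ∈ A, (1 : ℝ) := by simp
    rw [h2]
    refine sum_le_sum fun p hp => ?_
    have h3 : (13 : ℝ) ≤ (p : ℝ) := by exact_mod_cast hA p hp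
    rw [Real.le_log_iff_exp_le (by linarith)]
    have h4 := Real.exp_one_lt_d9
    linarith
  have h5 : ∑ p ∈ A, Real.log (p : ℝ) = Real.log ((∏ p ∈ A, p : ℕ) : ℝ) := by
    rw [Nat.cast_prod, Real.log_prod]
    intro p hp
    have := hA p hp
    exact_mod_cast (show p ≠ 0 by omega)
  have h6 : 0 < ∏ p ∈ A, p := prod_pos fun p hp => by
    have := hA p hp
    omega
  rw [h5] at h1
  refine h1.trans (Real.log_le_log (by exact_mod_cast h6) (by exact_mod_cast h))

theorem pcd_thm : S_PCD := by
  intro a b a' z hD ha'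
  classical
  set F := (range (z + 1)).filter (fun p : ℕ => p.Prime ∧ 13 ≤ p ∧
    ¬ (p : ℤ) ∣ D a b ∧ ¬ (p : ℤ) ∣ a') with hF
  let A := (D a b).natAbs.primeFactors.filter (fun p => 13 ≤ p)
  let A' := a'.natAbs.primeFactors.filter (fun p => 13 ≤ p)
  let S : Finset ℕ := {2, 3, 5, 7, 11}
  have hsub : (range (z + 1)).filter Nat.Prime ⊆ ((F ∪ S) ∪ A) ∪ A' := by
    intro p hp
    rw [mem_filter, mem_range] at hp
    obtain ⟨hpz, hpp⟩ := hp
    by_cases h13 : 13 ≤ p
    · by_cases h1 : (p : ℤ) ∣ D a b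
      · rw [mem_union, mem_union]
        left; right
        refine mem_filter.2 ⟨?_, h13⟩
        rw [Nat.mem_primeFactors]
        exact ⟨hpp, Int.natCast_dvd.1 h1, Int.natAbs_ne_zero.2 hD⟩
      · by_cases h2 : (p : ℤ) ∣ a'
        · rw [mem_union]
          right
          refine mem_filter.2 ⟨?_, h13⟩
          rw [Nat.mem_primeFactors]
          exact ⟨hpp, Int.natCast_dvd.1 h2, Int.natAbs_ne_zero.2 ha'⟩
        · rw [mem_union, mem_union, mem_union]
          left; left; left
          rw [hF, mem_filter, mem_range]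
          exact ⟨hpz, hpp, h13, h1, h2⟩
    · rw [mem_union, mem_union, mem_union]
      left; left; right
      have h3 : p < 13 := not_le.1 h13
      interval_cases p <;> first | (simp [S]; done) | (exfalso; revert hpp; norm_num; done)
  have hcard : Nat.primeCounting z ≤ F.card + 5 + A.card + A'.card := by
    have h1 : Nat.primeCounting z = ((range (z + 1)).filter Nat.Prime).card := by
      rw [Nat.primeCounting, Nat.primeCounting', Nat.count_eq_card_filter_range]
    rw [h1]
    refine (card_le_card hsub).trans ?_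
    have h2 := card_union_le ((F ∪ S) ∪ A) A'
    have h3 := card_union_le (F ∪ S) A
    have h4 := card_union_le F S
    have h5 : S.card = 5 := by rfl
    omega
  have hA : (A.card : ℝ) ≤ Real.log (R a b) := by
    refine PCD_card_le A (R a b) (fun p hp => (mem_filter.1 hp).2) ?_
    unfold R
    refine prod_le_prod_of_subset_of_one_le' (fun p hp => ?_) (fun p hp _ => ?_)
    · rw [mem_filter] at hp ⊢
      exact ⟨hp.1, by omega⟩
    · have := (mem_filter.1 hp).2
      omega
  have hA' : (A'.card : ℝ) ≤ Real.log |(a' : ℝ)| := by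
    have h1 : |(a' : ℝ)| = ((a'.natAbs : ℕ) : ℝ) := by
      rw [Nat.cast_natAbs, Int.cast_abs]
    rw [h1]
    refine PCD_card_le A' a'.natAbs (fun p hp => (mem_filter.1 hp).2) ?_
    refine Nat.le_of_dvd (Int.natAbs_pos.2 ha') ?_
    refine dvd_trans (prod_dvd_prod_of_subset _ _ _ (filter_subset _ _))
      (Nat.prod_primeFactors_dvd a'.natAbs)
  have h7 : (Nat.primeCounting z : ℝ) ≤ F.card + 5 + A.card + A'.card := by exact_mod_cast hcard
  linarith

end ESP
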